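import Pool.Agent.helper71.EP.SpecE
import Pool.Agent.helper18.TG.WT5

/-!
# Project ep: EAS (mean square of the model), copy of gm_sq with other numbers
-/

set_option autoImplicit false

open Finset
open scoped Real
open Pool.Agent.helper74.TG

namespace Pool.Agent.EP

theorem EAS : EAS_stmt := by
  intro m c hm h6
  have h1 : ∀ᶠ x : ℝ in Filter.atTop, Real.log x ^ 576 ≤ x := by
    have := (Real.isLittleO_pow_log_id_atTop (n := 576)).bound (c := 1) one_pos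
    filter_upwards [this, Filter.eventually_ge_atTop (1 : ℝ)] with x hx hx1
    simp only [id, one_mul] at hx
    rw [Real.norm_of_nonneg (pow_nonneg (Real.log_nonneg hx1) _),
      Real.norm_of_nonneg (by linarith)] at hx
    exact hx
  have h2 : ∀ᶠ x : ℝ in Filter.atTop, 5 ≤ Real.log x :=
    Real.tendsto_log_atTop.eventually_ge_atTop 5
  obtain ⟨N₀, hN₀⟩ := Filter.eventually_atTop.1
    ((tendsto_natCast_atTop_atTop (R := ℝ)).eventually (h1.and h2))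
  refine ⟨N₀, fun N hN => ?_⟩
  obtain ⟨hN1, hN2⟩ := hN₀ N hN
  set L : ℝ := Real.log N with hL
  set Q : ℕ := ⌊L ^ 96⌋₊ with hQ
  have hL0 : 0 ≤ L := by linarith
  have hQL : (Q : ℝ) ≤ L ^ 96 := Nat.floor_le (by positivity)
  have hQ1 : 1 ≤ (Q : ℝ) := by
    have : 1 ≤ Q := by
      rw [hQ, Nat.one_le_floor_iff]
      exact one_le_pow₀ (by linarith)
    exact_mod_cast this
  have hD : ∀ r ∈ Fa Q, ∀ s ∈ Fa Q, r ≠ s →
      ‖∑ x ∈ Ioc 0 N, ee (x * ((r.2 : ℝ) / r.1 - s.2 / s.1))‖ ≤ (Q : ℝ) ^ 2 / 2 := by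
    intro r hr s hs hrs
    refine (geom_bound 0 N (Nat.zero_le N) _).trans ?_
    refine (h18_gb_le (d := 1 / (Q : ℝ) ^ 2) (by positivity) (h18_spacing hr hs hrs)).trans ?_
    apply le_of_eq
    field_simp
  have hH : ∀ r ∈ Fa Q, ‖Hc m c r.2 r.1‖ ≤ 1 := by
    intro r hr
    simp only [Fa, mem_sigma, mem_Ioc, mem_filter, mem_range] at hr
    refine (Hc_bound m c r.2 r.1 hm hr.1.1 hr.2.2).trans ?_
    have : 1 ≤ Nat.totient r.1 := Nat.totient_pos.2 hr.1.1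
    rw [div_le_one (by exact_mod_cast this)]
    exact_mod_cast this
  have key := h18_mean_square (Fa Q) (fun r => Hc m c r.2 r.1) (fun r => (r.2 : ℝ) / r.1) N
    ((Q : ℝ) ^ 2 / 2) (by positivity) hH hD
  have e1 : ∑ x ∈ Ioc 0 N, ‖gm m c Q x‖ ^ 2 =
      ∑ x ∈ Ioc 0 N, ‖∑ r ∈ Fa Q, Hc m c r.2 r.1 * ee ((r.2 : ℝ) / r.1 * x)‖ ^ 2 := by
    refine Finset.sum_congr rfl fun x _ => ?_
    congr 2
    rw [gm]
    refine Finset.sum_congr rfl fun r _ => ?_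
    congr 2
    ring
  rw [e1]
  refine key.trans ?_
  have hcard : ((Fa Q).card : ℝ) ≤ (Q : ℝ) ^ 2 := by exact_mod_cast h18_card_Fa Q
  have e2 : ((Fa Q).card : ℝ) ^ 2 * ((Q : ℝ) ^ 2 / 2) ≤ N := by
    calc _ ≤ ((Q : ℝ) ^ 2) ^ 2 * ((Q : ℝ) ^ 2 / 2) :=
          mul_le_mul_of_nonneg_right (pow_le_pow_left₀ (by positivity) hcard 2) (by positivity)
      _ ≤ (Q : ℝ) ^ 6 := by nlinarith [show (0 : ℝ) ≤ (Q : ℝ) ^ 6 by positivity]
      _ ≤ (L ^ 96) ^ 6 := pow_le_pow_left₀ (by positivity) hQL 6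
      _ = L ^ 576 := by ring
      _ ≤ N := hN1
  have e3 : ∑ r ∈ Fa Q, ‖Hc m c r.2 r.1‖ ^ 2 ≤ 4 * L ^ 24 := by
    refine (h18_sum_Hc m c Q hm h6).trans ?_
    have : (Q : ℝ) ^ (1 / 4 : ℝ) ≤ L ^ 24 := by
      calc (Q : ℝ) ^ (1 / 4 : ℝ) ≤ (L ^ 96) ^ (1 / 4 : ℝ) :=
            Real.rpow_le_rpow (by positivity) hQL (by norm_num)
        _ = L ^ 24 := by
            rw [← Real.rpow_natCast, ← Real.rpow_mul hL0, ← Real.rpow_natCast]
            norm_num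
    linarith
  have hNn : (0 : ℝ) ≤ N := Nat.cast_nonneg N
  have e4 : 4 * L ^ 24 + 1 ≤ L ^ 25 := by
    have : 1 ≤ L ^ 24 := one_le_pow₀ (by linarith)
    nlinarith
  calc _ ≤ (N : ℝ) * (4 * L ^ 24) + N := add_le_add (mul_le_mul_of_nonneg_left e3 hNn) e2
    _ = N * (4 * L ^ 24 + 1) := by ring
    _ ≤ N * L ^ 25 := mul_le_mul_of_nonneg_left e4 hNn

end Pool.Agent.EP
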